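import Pool.Agent.Q100.LZ.Fin
import Pool.Agent.Q65.LZ.PZ
import Pool.Agent.Q65.LZ.LHO

/-! # Critical Lorentz sharpness for the Fourier decay of Riesz potentials (MP_8f79a4_an)

Full answer to Q1 for all dimensions and all parameters: the sequence exists if and only if
`β < d` or `q < 2`; for `β = d` and `q ≥ 2` the inequality of the negated form holds. -/

set_option autoImplicit false

open MeasureTheory Set Filter Complex

open scoped ENNReal NNReal Topology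

namespace Pool.Agent.Results.MP_8f79a4_an.CriticalLorentzSharpness

/-- the space `ℝᵈ` -/
abbrev Eu (d : ℕ) := EuclideanSpace ℝ (Fin d)

/-- the integral with respect to a finite signed measure -/
noncomputable def sint {d : ℕ} (μ : SignedMeasure (Eu d)) (f : Eu d → ℂ) : ℂ :=
  (∫ x, f x ∂μ.toJordanDecomposition.posPart) - ∫ x, f x ∂μ.toJordanDecomposition.negPart

/-- the heat kernel `p_t(x) = (4πt)^(-d/2) exp(-|x|²/(4t))` -/
noncomputable def heat (d : ℕ) (t : ℝ) (x : Eu d) : ℝ :=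
  (4 * Real.pi * t) ^ (-(d : ℝ) / 2) * Real.exp (-‖x‖ ^ 2 / (4 * t))

/-- the convolution `p_t * μ` -/
noncomputable def heatConv {d : ℕ} (μ : SignedMeasure (Eu d)) (t : ℝ) (x : Eu d) : ℂ :=
  sint μ fun y => (heat d t (x - y) : ℂ)

/-- the Fourier transform `∫ exp(-2πi x·ξ) dμ(x)` -/
noncomputable def four {d : ℕ} (μ : SignedMeasure (Eu d)) (ξ : Eu d) : ℂ :=
  sint μ fun x => cexp (-(2 * Real.pi * I) * (inner ℝ x ξ : ℝ))

/-- the norm `|μ|(ℝᵈ)` of `M_b` -/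
noncomputable def mass {d : ℕ} (μ : SignedMeasure (Eu d)) : ℝ≥0∞ := μ.totalVariation univ

/-- the norm `sup_{t > 0} t^((d-β)/2) ‖p_t * μ‖_∞` of `Ḃ^{β-d}_{∞,∞}` -/
noncomputable def besov {d : ℕ} (β : ℝ) (μ : SignedMeasure (Eu d)) : ℝ≥0∞ :=
  ⨆ (t : ℝ) (_ : 0 < t), ENNReal.ofReal (t ^ ((d - β) / 2)) * eLpNorm (heatConv μ t) ⊤ volume

/-- the Fourier transform `(2π|ξ|)^(-α) μ̂(ξ)` of the Riesz potential `I_α μ` -/
noncomputable def riesz {d : ℕ} (α : ℝ) (μ : SignedMeasure (Eu d)) (ξ : Eu d) : ℂ :=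
  (((2 * Real.pi * ‖ξ‖) ^ (-α) : ℝ) : ℂ) * four μ ξ

/-- the decreasing rearrangement `g*(s) = inf {l : |{|g| > l}| ≤ s}` -/
noncomputable def rearr {d : ℕ} (g : Eu d → ℂ) (s : ℝ) : ℝ≥0∞ :=
  sInf {l : ℝ≥0∞ | volume {x | l < ‖g x‖ₑ} ≤ ENNReal.ofReal s}

/-- the Lorentz quasi-norm `(∫_0^∞ (s^(1/p) g*(s))^q ds/s)^(1/q)` -/
noncomputable def lorentz {d : ℕ} (p q : ℝ) (g : Eu d → ℂ) : ℝ≥0∞ :=
  (∫⁻ s in Ioi (0 : ℝ), (ENNReal.ofReal (s ^ (1 / p)) * rearr g s) ^ q * ENNReal.ofReal s⁻¹) ^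
    (1 / q)

/-- the sequence of Q1: both norms are bounded, and the quasi-norms in `L^{p,q}`,
`p = 2d/(2α+β)`, tend to infinity -/
def SequenceExists (d : ℕ) (α β q : ℝ) : Prop :=
  ∃ Φ : ℕ → SignedMeasure (Eu d), (∃ C : ℝ≥0, ∀ N, mass (Φ N) + besov β (Φ N) ≤ C) ∧
    Tendsto (fun N => lorentz (2 * d / (2 * α + β)) q (riesz α (Φ N))) atTop (𝓝 ⊤)

/-- Full answer to Q1. For every dimension `d ≥ 1`, all `0 < β ≤ d`, all `0 < α < d` with
`(d-β)/2 < α < d-β/2` and all `1 ≤ q < ∞`, the sequence exists if and only if `β < d` or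
`q < 2`. Moreover, at the end point `β = d`, for `q ≥ 2`, the quasi-norm in `L^{p,q}` is at most
`C ‖μ‖_{M_b}^{1/2} ‖μ‖_{Ḃ^0_{∞,∞}}^{1/2}` for all finite signed measures. -/
theorem result :
    (∀ (d : ℕ) (α β q : ℝ), 1 ≤ d → 0 < β → β ≤ d → 0 < α → α < d →
      ((d : ℝ) - β) / 2 < α → α < d - β / 2 → 1 ≤ q →
        (SequenceExists d α β q ↔ (β < d ∨ q < 2))) ∧
    ∀ (d : ℕ) (α q : ℝ), 1 ≤ d → 0 < α → α < (d : ℝ) / 2 → 2 ≤ q →
      ∃ C : ℝ≥0, ∀ μ : SignedMeasure (Eu d),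
        lorentz (2 * d / (2 * α + d)) q (riesz α μ) ≤ C * (mass μ * besov d μ) ^ (1 / 2 : ℝ) :=
  ⟨fun d α β q hd hβ hβd hα hαd h1 h2 hq =>
    Q100.LZ.main' Pool.Agent.Q65.LZ.pz Pool.Agent.Q65.LZ.lho d α β q hd hβ hβd hα hαd h1 h2 hq,
    Q100.LZ.en2' Pool.Agent.Q65.LZ.lho⟩

end Pool.Agent.Results.MP_8f79a4_an.CriticalLorentzSharpness
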